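import Pool.Agent.helper14.SCO.Spec

/-!
# Row sco:XPT (MP_bfc607_gt)
-/

set_option autoImplicit false

namespace Pool.Agent.SCO

open Pool.Agent.Scheepers

theorem XPT_reg_mono {l l' : ℕ} (h : l ≤ l') : Reg l ⊆ Reg l' := by
  rintro w ⟨e, he, rfl⟩
  exact ⟨e, he.trans_le h, rfl⟩

/-- invariant of the states -/
structure XPT_Inv (p : Cond) (h : ℕ → ℕ) (J m : ℕ) (t : Finset (ℕ × ℕ)) (y : ℕ → Bool) : Prop where
  hm : J ≤ m
  ht : (t : Set (ℕ × ℕ)) ⊆ Reg (p.a m)
  hJ : ∀ w ∈ t, w ∉ Reg (p.a J)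
  hA : ∀ j, J ≤ j → j < m → y ∈ p.A j
  hf : ∀ e, e < p.a m → pos e ∈ t → y e = false
  hn : ∀ w ∈ Reg (p.a m), w ∉ Reg (p.a J) → w ∉ t → ∃ e, p.a J ≤ e ∧ e < p.a m ∧ pos e = w ∧ y e = true
  ho : ∀ e, p.a J ≤ e → e < p.a m → pos e ∈ Reg (p.a J) → y e = true
  hh : ∀ w ∈ t, w.2 = h w.1

theorem XPT_step (h1 : RFI_stmt) (h2 : LRG_stmt) (p : Cond) (h : ℕ → ℕ) (V : Set (ℕ → Bool))
    (hV : IsOpen V) (hDV : D ⊆ V) (J : ℕ) (hJ : ∀ j, J ≤ j → Lg (p.A j) (p.a j) (p.a (j + 1)))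
    (m : ℕ) (t : Finset (ℕ × ℕ)) (y : ℕ → Bool) (hI : XPT_Inv p h J m t y) :
    ∃ (l : ℕ) (y' : ℕ → Bool) (n : ℕ), XPT_Inv p h J l (insert (n, h n) t) y' ∧ m < l ∧
      (∀ e, e < p.a m → y' e = y e) ∧ (∀ w ∈ t, w.1 < n) ∧
      ∀ v : ℕ → Bool, (∀ e, e < p.a l → v e = y' e) → v ∈ V := by
  classical
  have hx : cat (p.a m) y (dlt t) ∈ D := by
    refine ⟨t, p.a m, fun e he => ?_⟩
    rw [cat, if_neg (not_lt.2 he)]
  obtain ⟨b, hb⟩ := exists_cyl hV (hDV hx)
  set m' := max (m + 1) b with hm'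
  have hmm' : m < m' := lt_of_lt_of_le (Nat.lt_succ_self m) (le_max_left _ _)
  have hbm' : b ≤ p.a m' := (le_max_right _ _).trans (p.mono.id_le m')
  have hamm' : p.a m < p.a m' := p.mono hmm'
  have hfin : (Prod.fst '' Reg (p.a m')).Finite := (h1 (p.a m')).image _
  obtain ⟨n, hn⟩ : ∃ n, ∀ w ∈ Reg (p.a m'), w.1 < n := by
    obtain ⟨n, hn⟩ := hfin.bddAbove
    exact ⟨n + 1, fun w hw => Nat.lt_succ_of_le (hn ⟨w, hw, rfl⟩)⟩
  set w : ℕ × ℕ := (n, h n) with hw
  have hwm' : w ∉ Reg (p.a m') := fun hcon => lt_irrefl _ (hn w hcon)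
  obtain ⟨e0, -, he0⟩ := exists_pos_ge w 0
  set l := max (m' + 1) (e0 + 1) with hl
  have hm'l : m' < l := lt_of_lt_of_le (Nat.lt_succ_self m') (le_max_left _ _)
  have ham'l : p.a m' < p.a l := p.mono hm'l
  have hwl : w ∈ Reg (p.a l) :=
    ⟨e0, lt_of_lt_of_le (Nat.lt_succ_self e0) ((le_max_right _ _).trans (p.mono.id_le l)), he0⟩
  have htm' : (t : Set (ℕ × ℕ)) ⊆ Reg (p.a m') := hI.ht.trans (XPT_reg_mono hamm'.le)
  have haJ : p.a J ≤ p.a m := p.mono.monotone hI.hm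
  obtain ⟨u, hu, hpat1, hpat2, hpat3⟩ := (h2 p m' l hm'l (fun j hj => hJ j
    (hI.hm.trans (hmm'.le.trans hj))) t htm').2 w hwl hwm'
  have hJm' : Reg (p.a J) ⊆ Reg (p.a m') := XPT_reg_mono (haJ.trans hamm'.le)
  refine ⟨l, fun e => if e < p.a m then y e else if e < p.a m' then dlt t e else u e, n, ?_,
    hmm'.trans hm'l, fun e he => if_pos he, fun w hw => hn w (htm' hw), ?_⟩
  · refine ⟨hI.hm.trans (hmm'.le.trans hm'l.le), ?_, ?_, ?_, ?_, ?_, ?_, ?_⟩
    · rw [Finset.coe_insert]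
      exact Set.insert_subset hwl (htm'.trans (XPT_reg_mono ham'l.le))
    · intro w' hw'
      rcases Finset.mem_insert.1 hw' with rfl | hw'
      · exact fun hcon => hwm' (hJm' hcon)
      · exact hI.hJ w' hw'
    · intro j hjJ hjl
      rcases lt_or_ge j m with hjm | hjm
      · refine p.loc j y _ (fun e he he' => ?_) (hI.hA j hjJ hjm)
        rw [if_pos]
        exact he'.trans_le (p.mono.monotone hjm)
      rcases lt_or_ge j m' with hjm' | hjm'
      · refine p.loc j (dlt t) _ (fun e he he' => ?_)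
          ((hJ j hjJ) t (hI.ht.trans (XPT_reg_mono (p.mono.monotone hjm)))).1
        have h3 : p.a m ≤ e := (p.mono.monotone hjm).trans he
        have h4 : e < p.a m' := he'.trans_le (p.mono.monotone hjm')
        rw [if_neg (not_lt.2 h3), if_pos h4]
      · refine p.loc j u _ (fun e he he' => ?_) (hu j (p.mono.monotone hjm') (p.mono.monotone hjl))
        have h3 : p.a m' ≤ e := (p.mono.monotone hjm').trans he
        rw [if_neg (not_lt.2 (hamm'.le.trans h3)), if_neg (not_lt.2 h3)]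
    · intro e he hpe
      show (if e < p.a m then y e else if e < p.a m' then dlt t e else u e) = false
      rcases Finset.mem_insert.1 hpe with hpe | hpe
      · have h3 : p.a m' ≤ e := by
          by_contra hcon
          exact hwm' ⟨e, not_le.1 hcon, hpe⟩
        rw [if_neg (not_lt.2 (hamm'.le.trans h3)), if_neg (not_lt.2 h3)]
        exact hpat2 e h3 he hpe
      · split_ifs with h3 h4
        · exact hI.hf e h3 hpe
        · simp [dlt, hpe]
        · rw [hpat1 e (not_lt.1 h4) he (htm' hpe)]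
          simp [dlt, hpe]
    · intro w' hw' hw'J hw't
      rw [Finset.mem_insert, not_or] at hw't
      by_cases h3 : w' ∈ Reg (p.a m)
      · obtain ⟨e, he1, he2, he3, he4⟩ := hI.hn w' h3 hw'J hw't.2
        exact ⟨e, he1, he2.trans (hamm'.trans ham'l), he3, by rw [if_pos he2, he4]⟩
      by_cases h4 : w' ∈ Reg (p.a m')
      · obtain ⟨e, he1, he2⟩ := h4
        have h5 : p.a m ≤ e := by
          by_contra hcon
          exact h3 ⟨e, not_le.1 hcon, he2⟩
        refine ⟨e, haJ.trans h5, he1.trans ham'l, he2, ?_⟩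
        rw [if_neg (not_lt.2 h5), if_pos he1]
        simp [dlt, he2, hw't.2]
      · obtain ⟨e, he1, he2, he3, he4⟩ := hpat3 w' hw' h4 hw't.1
        refine ⟨e, haJ.trans (hamm'.le.trans he1), he2, he3, ?_⟩
        rw [if_neg (not_lt.2 (hamm'.le.trans he1)), if_neg (not_lt.2 he1), he4]
    · intro e he1 he2 he3
      show (if e < p.a m then y e else if e < p.a m' then dlt t e else u e) = true
      have h3 : pos e ∉ t := fun hcon => hI.hJ _ hcon he3
      split_ifs with h4 h5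
      · exact hI.ho e he1 h4 he3
      · simp [dlt, h3]
      · rw [hpat1 e (not_lt.1 h5) he2 (hJm' he3)]
        simp [dlt, h3]
    · intro w' hw'
      rcases Finset.mem_insert.1 hw' with rfl | hw'
      · rfl
      · exact hI.hh w' hw'
  · intro v hv
    refine hb v fun e he => ?_
    rw [hv e (he.trans_le (hbm'.trans ham'l.le))]
    show (if e < p.a m then y e else if e < p.a m' then dlt t e else u e) = cat (p.a m) y (dlt t) e
    rw [cat, if_pos (he.trans_le hbm')]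

theorem XPT (h1 : RFI_stmt) (h2 : LRG_stmt) : XPT_stmt := by
  classical
  intro p h V hV
  obtain ⟨J, hJ⟩ := p.large
  let S := {s : ℕ × Finset (ℕ × ℕ) × (ℕ → Bool) // XPT_Inv p h J s.1 s.2.1 s.2.2}
  have hstep : ∀ (r : ℕ) (s : S), ∃ (s' : S) (n : ℕ), s'.1.2.1 = insert (n, h n) s.1.2.1 ∧
      s.1.1 < s'.1.1 ∧ (∀ e, e < p.a s.1.1 → s'.1.2.2 e = s.1.2.2 e) ∧ (∀ w ∈ s.1.2.1, w.1 < n) ∧
      ∀ v : ℕ → Bool, (∀ e, e < p.a s'.1.1 → v e = s'.1.2.2 e) → v ∈ V r := by
    rintro r ⟨⟨m, t, y⟩, hI⟩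
    obtain ⟨l, y', n, hI', h3, h4, h5, h6⟩ := XPT_step h1 h2 p h (V r) (hV r).1 (hV r).2 J hJ m t y hI
    exact ⟨⟨(l, insert (n, h n) t, y'), hI'⟩, n, rfl, h3, h4, h5, h6⟩
  choose nxt n hn1 hn2 hn3 hn4 hn5 using hstep
  let s0 : S := ⟨(J, ∅, fun _ => true), ⟨le_rfl, by simp, by simp, fun j h3 h4 => absurd h4 (not_lt.2 h3),
    by simp, fun w hw hw' => absurd hw hw', fun _ _ _ _ => rfl, by simp⟩⟩
  let sq : ℕ → S := fun r => Nat.rec s0 (fun r s => nxt r s) r
  have hsq : ∀ r, sq (r + 1) = nxt r (sq r) := fun r => rfl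
  set M : ℕ → ℕ := fun r => (sq r).1.1 with hM
  set T : ℕ → Finset (ℕ × ℕ) := fun r => (sq r).1.2.1 with hT
  set Y : ℕ → ℕ → Bool := fun r => (sq r).1.2.2 with hY
  have hInv : ∀ r, XPT_Inv p h J (M r) (T r) (Y r) := fun r => (sq r).2
  have hMlt : ∀ r, M r < M (r + 1) := fun r => hn2 r (sq r)
  have hMmono : StrictMono M := strictMono_nat_of_lt_succ hMlt
  have hge : ∀ r, r ≤ p.a (M r) := fun r => (hMmono.id_le r).trans (p.mono.id_le (M r))
  have hTs : ∀ r, T (r + 1) = insert (n r (sq r), h (n r (sq r))) (T r) := fun r => hn1 r (sq r)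
  have hTmono : Monotone T := monotone_nat_of_le_succ fun r => by
    rw [hTs]; exact Finset.subset_insert _ _
  have hYs : ∀ r r', r ≤ r' → ∀ e, e < p.a (M r) → Y r' e = Y r e := by
    intro r r' hrr'
    induction r', hrr' using Nat.le_induction with
    | base => intro e _; rfl
    | succ r' hrr' ih =>
      intro e he
      rw [← ih e he]
      exact hn3 r' (sq r') e (he.trans_le (p.mono.monotone (hMmono.monotone hrr')))
  set z : ℕ → Bool := fun e => Y (e + 1) e with hz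
  have hzY : ∀ r e, e < p.a (M r) → z e = Y r e := by
    intro r e he
    rcases le_total r (e + 1) with h3 | h3
    · exact hYs r (e + 1) h3 e he
    · exact (hYs (e + 1) r h3 e (lt_of_lt_of_le (Nat.lt_succ_self e) (hge (e + 1)))).symm
  have hzF : ∀ r, ∀ w ∈ T r, z ∈ F w := by
    intro r w hw e he
    have h3 : e < p.a (M (max r (e + 1))) :=
      lt_of_lt_of_le (Nat.lt_succ_self e) ((le_max_right r (e + 1)).trans (hge _))
    rw [hzY _ e h3]
    exact (hInv _).hf e h3 (by rw [he]; exact hTmono (le_max_left _ _) hw)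
  refine ⟨z, ⟨J, fun j hj => ?_⟩, ⟨?_, ?_⟩, ?_⟩
  · have h3 : j < M (j + 1) := lt_of_lt_of_le (Nat.lt_succ_self j) (hMmono.id_le (j + 1))
    refine p.loc j (Y (j + 1)) z (fun e he he' => ?_) ((hInv (j + 1)).hA j hj h3)
    exact (hzY (j + 1) e (he'.trans_le (p.mono.monotone h3))).symm
  · intro a
    refine (Set.finite_singleton (h a)).subset ?_
    intro b hb
    have hb' : z ∈ F (a, b) := hb
    have hbJ : (a, b) ∉ Reg (p.a J) := by
      intro hcon
      obtain ⟨e, he1, he2⟩ := exists_pos_ge (a, b) (p.a J)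
      have h3 : e < p.a (M (e + 1)) := lt_of_lt_of_le (Nat.lt_succ_self e) (hge _)
      have h4 := (hInv (e + 1)).ho e he1 h3 (by rw [he2]; exact hcon)
      rw [← hzY (e + 1) e h3, hb' e he2] at h4
      exact Bool.false_ne_true h4
    obtain ⟨e, -, he2⟩ := exists_pos_ge (a, b) 0
    have h3 : e < p.a (M (e + 1)) := lt_of_lt_of_le (Nat.lt_succ_self e) (hge _)
    by_contra hcon
    have h4 : (a, b) ∉ T (e + 1) := fun h5 => hcon ((hInv (e + 1)).hh _ h5)
    obtain ⟨e', he1', he2', he3', he4'⟩ := (hInv (e + 1)).hn (a, b) ⟨e, h3, he2⟩ hbJ h4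
    rw [← hzY (e + 1) e' he2', hb' e' he3'] at he4'
    exact Bool.false_ne_true he4'
  · intro i
    exact hn5 i (sq i) z fun e he => hzY (i + 1) e he
  · have hmem : ∀ r, (n r (sq r), h (n r (sq r))) ∈ T (r + 1) := fun r => by
      rw [hTs]; exact Finset.mem_insert_self _ _
    have hlt : ∀ r, n r (sq r) < n (r + 1) (sq (r + 1)) := fun r =>
      hn4 (r + 1) (sq (r + 1)) _ (hmem r)
    exact Set.infinite_of_injective_forall_mem
      (strictMono_nat_of_lt_succ (f := fun r => n r (sq r)) hlt).injective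
      fun r => hzF (r + 1) _ (hmem r)

end Pool.Agent.SCO
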